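import Pool.Agent.H95.Nf1

set_option autoImplicit false

open CategoryTheory Pool.Agent.H95.NfDefs

/-- A finitary normal functor of finite degree on compacta that is skeletal but not open. -/
theorem Pool.Agent.Results.MP_92e33a_gt.No.result :
    ∃ F : Comp ⥤ Comp, Normal F ∧ Finitary F ∧ FinDeg F ∧ Skeletal F ∧ ¬ OpenF F :=
  ⟨_, Pool.Agent.H95.Nf1.normal, Pool.Agent.H95.Nf1.finitary, Pool.Agent.H95.Nf1.finDeg,
    Pool.Agent.H95.Nf1.skeletal, Pool.Agent.H95.Nf1.notOpen⟩
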